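import Pool.Agent.H13.HP.Defs

/-!
# Module SEL (hp_modules): choice of the translate, in any characteristic
-/

open Polynomial

namespace Pool.Agent.H3.HP

open Pool.Agent.H13.HP

universe u

/-- the matrix `(g θ_i)` of a basis `θ` over the fixed field is invertible. -/
theorem exists_basis (M : Type u) [Field M] (G : Type u) [Group G] [Fintype G] [DecidableEq G]
    [MulSemiringAction G M] [FaithfulSMul G M] :
    ∃ θ : G → M, IsUnit (Matrix.of (fun g i => g • θ i) : Matrix G G M) := by
  classical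
  have hfr := FixedPoints.finrank_eq_card G M
  let B := Module.finBasisOfFinrankEq (FixedPoints.subfield G M) M hfr
  let e := Fintype.equivFin G
  refine ⟨fun i => B (e i), ?_⟩
  rw [← Matrix.linearIndependent_cols_iff_isUnit]
  have h0 : LinearIndepOn (FixedPoints.subfield G M) id
      ((Finset.univ.image B : Finset M) : Set M) := by
    have h := B.linearIndependent.linearIndepOn_id
    convert! h using 1
    simp
  have h1 := FixedPoints.linearIndependent_smul_of_linearIndependent G M h0
  have h2 := LinearIndependent.comp h1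
    (fun i : G => (⟨B (e i), by simp⟩ : ((Finset.univ.image B : Finset M) : Set M))) (by
      intro i j hij
      have := congrArg Subtype.val hij
      exact e.injective (B.injective this))
  exact h2

variable {M Ω : Type u} [Field M] [Field Ω] {G : Type u} [Group G]
  [MulSemiringAction G M] {Γ₀ : Type u} [LinearOrderedCommGroupWithZero Γ₀]

theorem exists_fixed_gt [Finite G] (ι : M →+* Ω) (v : Valuation Ω Γ₀) (t : M)
    (ht : ∀ g : G, g • t = t) (h2 : 1 < v (ι t)) (β : M) :
    ∃ ρ : M, (∀ g : G, g • ρ = ρ) ∧ ρ ≠ 0 ∧ v (ι β) < v (ι ρ) := by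
  have key : ∃ ρ : M, (∀ g : G, g • ρ = ρ) ∧ ρ ≠ 0 ∧ v (ι β) ≤ v (ι ρ) := by
    by_cases h1 : v (ι β) ≤ 1
    · exact ⟨1, fun g => smul_one g, one_ne_zero, by simpa using h1⟩
    push Not at h1
    obtain ⟨p, hp, hp0⟩ := FixedPoints.isIntegral G M β
    by_contra hcon
    push Not at hcon
    have hβ0 : v (ι β) ≠ 0 := by
      intro h; rw [h] at h1; exact absurd h1 (not_lt.2 zero_le_one)
    have hcoef : ∀ i, v (ι (p.coeff i : M)) < v (ι β) := by
      intro i
      by_cases h0 : (p.coeff i : M) = 0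
      · rw [h0, map_zero, map_zero]
        exact zero_lt_iff.2 hβ0
      · exact hcon _ (fun g => (p.coeff i).2 g) h0
    have h3 : β ^ p.natDegree = - ∑ i ∈ Finset.range p.natDegree, (p.coeff i : M) * β ^ i := by
      rw [Polynomial.eval₂_eq_sum_range, Finset.sum_range_succ] at hp0
      have h4 : p.coeff p.natDegree = 1 := hp
      rw [h4, map_one, one_mul] at hp0
      rw [eq_neg_iff_add_eq_zero, add_comm]
      exact hp0
    have h5 : v (ι (β ^ p.natDegree)) < v (ι β) ^ p.natDegree := by
      rw [h3, map_neg, Valuation.map_neg, map_sum]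
      refine v.map_sum_lt (pow_ne_zero _ hβ0) ?_
      intro i hi
      rw [Finset.mem_range] at hi
      rw [map_mul, map_mul, map_pow, map_pow]
      calc v (ι (p.coeff i : M)) * v (ι β) ^ i < v (ι β) * v (ι β) ^ i := by
            have := hcoef i
            exact mul_lt_mul_of_pos_right this (zero_lt_iff.2 (pow_ne_zero _ hβ0))
        _ = v (ι β) ^ (i + 1) := by rw [pow_succ']
        _ ≤ v (ι β) ^ p.natDegree := pow_le_pow_right₀ h1.le hi
    rw [map_pow, map_pow] at h5
    exact lt_irrefl _ h5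
  obtain ⟨ρ, h1, h3, h4⟩ := key
  have ht0 : t ≠ 0 := by
    rintro rfl
    rw [map_zero, map_zero] at h2
    exact absurd h2 (not_lt.2 zero_le_one)
  refine ⟨ρ * t, ?_, mul_ne_zero h3 ht0, ?_⟩
  · intro g
    rw [smul_mul', h1 g, ht g]
  · refine lt_of_le_of_lt h4 ?_
    rw [map_mul, map_mul]
    have hρ : v (ι ρ) ≠ 0 := by
      rw [Valuation.ne_zero_iff, Ne, map_eq_zero]
      exact h3
    calc v (ι ρ) = v (ι ρ) * 1 := (mul_one _).symm
      _ < v (ι ρ) * v (ι t) := mul_lt_mul_of_pos_left h2 (zero_lt_iff.2 hρ)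

theorem exists_fixed_gt_finset [Finite G] (ι : M →+* Ω) (v : Valuation Ω Γ₀) (t : M)
    (ht : ∀ g : G, g • t = t) (h2 : 1 < v (ι t)) (s : Finset M) :
    ∃ ρ : M, (∀ g : G, g • ρ = ρ) ∧ ρ ≠ 0 ∧ ∀ β ∈ s, v (ι β) < v (ι ρ) := by
  classical
  induction s using Finset.induction_on with
  | empty => exact ⟨1, fun g => smul_one g, one_ne_zero, by simp⟩
  | insert a s _ ih =>
    obtain ⟨ρ, h1, h3, h4⟩ := ih
    obtain ⟨ρ', h1', h3', h4'⟩ := exists_fixed_gt (G := G) ι v t ht h2 a
    rcases le_total (v (ι ρ)) (v (ι ρ')) with h | h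
    · refine ⟨ρ', h1', h3', ?_⟩
      intro β hβ
      rcases Finset.mem_insert.1 hβ with rfl | hβ
      · exact h4'
      · exact (h4 β hβ).trans_le h
    · refine ⟨ρ, h1, h3, ?_⟩
      intro β hβ
      rcases Finset.mem_insert.1 hβ with rfl | hβ
      · exact h4'.trans_le h
      · exact h4 β hβ

theorem totalDegree_aff {G Ω : Type u} [Fintype G] [Field Ω] (P : MvPolynomial G Ω)
    (L : G → MvPolynomial G Ω) (hL : ∀ g, (L g).totalDegree ≤ 1) :
    (MvPolynomial.aeval L P).totalDegree ≤ P.totalDegree := by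
  classical
  rw [MvPolynomial.aeval_def, MvPolynomial.eval₂_eq']
  refine MvPolynomial.totalDegree_finsetSum_le ?_
  intro m hm
  refine (MvPolynomial.totalDegree_mul _ _).trans ?_
  have h1 : (algebraMap Ω (MvPolynomial G Ω) (MvPolynomial.coeff m P)).totalDegree = 0 := by
    rw [MvPolynomial.algebraMap_eq]
    exact MvPolynomial.totalDegree_C _
  rw [h1, zero_add]
  refine (MvPolynomial.totalDegree_finsetProd _ _).trans ?_
  refine le_trans (Finset.sum_le_sum (g := fun i => m i) ?_) ?_
  · intro i _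
    refine (MvPolynomial.totalDegree_pow _ _).trans ?_
    calc m i * (L i).totalDegree ≤ m i * 1 := Nat.mul_le_mul_left _ (hL i)
      _ = m i := mul_one _
  · have h2 := MvPolynomial.le_totalDegree hm
    rw [Finsupp.sum_fintype _ _ (fun _ => rfl)] at h2
    exact h2

theorem sel : T_SEL.{u} := by
  intro M Ω _ _ G _ _ _ _ ι Γ₀ _ v P b t ht h2 hP
  classical
  have := Fintype.ofFinite G
  have hpow : Function.Injective (fun n : ℕ => (ι t) ^ n) := by
    intro m n hmn
    have h : v (ι t) ^ m = v (ι t) ^ n := by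
      have := congrArg v hmn
      simpa only [map_pow] using this
    exact pow_right_injective₀ (zero_lt_one.trans h2) h2.ne' h
  have : Infinite Ω := Infinite.of_injective _ hpow
  have hgt : ∀ (g : G) (n : ℕ), g • (t ^ n) = t ^ n := by
    intro g n
    rw [smul_pow', ht g]
  obtain ⟨θ, hθ⟩ := exists_basis M G
  let w : (G → ℕ) → M := fun k => ∑ i, t ^ k i * θ i
  have hgw : ∀ (g : G) (k : G → ℕ), g • w k = ∑ i, t ^ k i * (g • θ i) := by
    intro g k
    show g • (∑ i, t ^ k i * θ i) = _
    rw [Finset.smul_sum]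
    refine Finset.sum_congr rfl fun i _ => ?_
    rw [smul_mul', hgt]
  have hw : ∀ k k' : G → ℕ, w k = w k' → k = k' := by
    intro k k' h
    have h1 : (Matrix.of (fun g i => g • θ i) : Matrix G G M).mulVec (fun i => t ^ k i) =
        (Matrix.of (fun g i => g • θ i) : Matrix G G M).mulVec (fun i => t ^ k' i) := by
      funext g
      have h3 := congrArg (fun z => g • z) h
      simp only [hgw] at h3
      simp only [Matrix.mulVec, dotProduct, Matrix.of_apply]
      rw [Finset.sum_congr rfl fun i _ => mul_comm (g • θ i) (t ^ k i),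
        Finset.sum_congr rfl fun i _ => mul_comm (g • θ i) (t ^ k' i)]
      exact h3
    have h3 := Matrix.mulVec_injective_of_isUnit hθ h1
    funext i
    apply hpow
    have h4 := congrArg ι (congrFun h3 i)
    simpa only [map_pow] using h4
  set D := P.totalDegree with hD
  set N := D + Fintype.card G + 1 with hN
  let K : Finset (G → ℕ) := Fintype.piFinset (fun _ : G => Finset.range N)
  obtain ⟨ρ, hρ1, hρ0, hρ⟩ := exists_fixed_gt_finset (G := G) ι v t ht h2
    ((K ×ˢ K ×ˢ (Finset.univ : Finset G)).image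
      (fun z : (G → ℕ) × (G → ℕ) × G => b / (z.2.2 • (w z.1 - w z.2.1))))
  refine ⟨K.image (fun k => ρ * w k), ?_⟩
  intro q
  have hval : ∀ (g : G) (k : G → ℕ), ι (g • (q + ρ * w k)) =
      ι (g • q) + ∑ i, (ι ρ * ι (g • θ i)) * (ι t) ^ k i := by
    intro g k
    rw [smul_add, smul_mul', hρ1 g, hgw, map_add, map_mul, map_sum, Finset.mul_sum]
    congr 1
    refine Finset.sum_congr rfl fun i _ => ?_
    rw [map_mul, map_pow]
    ring
  -- at most one bad `k` for each `g`
  have hbad : ∀ (g : G), ∀ k ∈ K, ∀ k' ∈ K, v (ι (g • (q + ρ * w k))) ≤ v (ι b) →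
      v (ι (g • (q + ρ * w k'))) ≤ v (ι b) → k = k' := by
    intro g k hk k' hk' h1 h3
    by_contra hne
    have hδ : g • (w k - w k') ≠ 0 := by
      intro h0
      rw [smul_eq_zero_iff_eq] at h0
      exact hne (hw k k' (sub_eq_zero.1 h0))
    have h4 := hρ (b / (g • (w k - w k'))) (Finset.mem_image.2 ⟨(k, k', g), by
      simp [hk, hk'], rfl⟩)
    have hvδ : v (ι (g • (w k - w k'))) ≠ 0 := by
      rw [Valuation.ne_zero_iff]
      exact (map_ne_zero ι).2 hδ
    rw [map_div₀, map_div₀, div_lt_iff₀ (zero_lt_iff.2 hvδ)] at h4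
    have h5 : ι (g • (q + ρ * w k)) - ι (g • (q + ρ * w k')) =
        ι ρ * ι (g • (w k - w k')) := by
      rw [← map_sub, ← smul_sub, ← map_mul]
      congr 1
      have : q + ρ * w k - (q + ρ * w k') = ρ * (w k - w k') := by ring
      rw [this, smul_mul', hρ1 g]
    have h6 : v (ι ρ * ι (g • (w k - w k'))) ≤ v (ι b) := by
      rw [← h5]
      exact (Valuation.map_sub v _ _).trans (max_le h1 h3)
    rw [Valuation.map_mul] at h6
    exact absurd h4 (not_lt.2 h6)
  let κ : G → (G → ℕ) := fun g =>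
    if h : ∃ k ∈ K, v (ι (g • (q + ρ * w k))) ≤ v (ι b) then h.choose else 0
  have hκ : ∀ g, ∀ k ∈ K, v (ι (g • (q + ρ * w k))) ≤ v (ι b) → k = κ g := by
    intro g k hk h1
    have hex : ∃ k ∈ K, v (ι (g • (q + ρ * w k))) ≤ v (ι b) := ⟨k, hk, h1⟩
    have h3 : κ g = hex.choose := dif_pos hex
    rw [h3]
    exact hbad g k hk _ hex.choose_spec.1 h1 hex.choose_spec.2
  let L : G → MvPolynomial G Ω := fun g =>
    MvPolynomial.C (ι (g • q)) + ∑ i, MvPolynomial.C (ι ρ * ι (g • θ i)) * MvPolynomial.X i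
  have hLdeg : ∀ g, (L g).totalDegree ≤ 1 := by
    intro g
    refine (MvPolynomial.totalDegree_add _ _).trans (max_le ?_ ?_)
    · rw [MvPolynomial.totalDegree_C]; exact Nat.zero_le _
    · refine MvPolynomial.totalDegree_finsetSum_le ?_
      intro i _
      refine (MvPolynomial.totalDegree_mul _ _).trans ?_
      rw [MvPolynomial.totalDegree_C, MvPolynomial.totalDegree_X]
  have hLev : ∀ (c : G → Ω) g, MvPolynomial.eval c (L g) =
      ι (g • q) + ∑ i, (ι ρ * ι (g • θ i)) * c i := by
    intro c g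
    simp [L]
  have hev : ∀ c : G → Ω, MvPolynomial.eval c (MvPolynomial.aeval L P) =
      MvPolynomial.eval (fun g => ι (g • q) + ∑ i, (ι ρ * ι (g • θ i)) * c i) P := by
    intro c
    have h1 : MvPolynomial.eval c (MvPolynomial.aeval L P) =
        MvPolynomial.eval (fun g => MvPolynomial.eval c (L g)) P :=
      MvPolynomial.comp_aeval_apply L (MvPolynomial.aeval c) P
    rw [h1]
    congr 1
    congr 1
    funext g
    exact hLev c g
  let Q : MvPolynomial G Ω := MvPolynomial.aeval L P *
    ∏ g : G, (MvPolynomial.X 1 - MvPolynomial.C ((ι t) ^ κ g 1))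
  have hQ1 : MvPolynomial.aeval L P ≠ 0 := by
    intro h0
    apply hP
    apply MvPolynomial.funext
    intro y
    have hu : IsUnit ((ι ρ) • ((Matrix.of (fun g i => g • θ i) : Matrix G G M).map ι)) := by
      have h1 : IsUnit ((Matrix.of (fun g i => g • θ i) : Matrix G G M).map ι) :=
        hθ.map ι.mapMatrix
      rw [Matrix.isUnit_iff_isUnit_det] at h1 ⊢
      rw [Matrix.det_smul]
      exact IsUnit.mul ((IsUnit.mk0 _ ((map_ne_zero ι).2 hρ0)).pow _) h1
    obtain ⟨c, hc⟩ := Matrix.mulVec_surjective_iff_isUnit.2 hu (fun g => y g - ι (g • q))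
    have h1 := hev c
    rw [h0, map_zero] at h1
    rw [map_zero]
    rw [h1]
    congr 1
    congr 1
    funext g
    have h3 := congrFun hc g
    simp only [Matrix.mulVec, dotProduct, Matrix.smul_apply, Matrix.map_apply, Matrix.of_apply,
      smul_eq_mul] at h3
    rw [h3]; ring
  have hQ2 : ∀ a : Ω, (MvPolynomial.X 1 - MvPolynomial.C a : MvPolynomial G Ω) ≠ 0 := by
    intro a h0
    have h1 := congrArg (MvPolynomial.eval (fun _ => a + 1)) h0
    simp at h1
  have hQ0 : Q ≠ 0 := mul_ne_zero hQ1 (Finset.prod_ne_zero_iff.2 fun g _ => hQ2 _)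
  have hQdeg : Q.totalDegree ≤ D + Fintype.card G := by
    refine (MvPolynomial.totalDegree_mul _ _).trans (Nat.add_le_add (totalDegree_aff P L hLdeg) ?_)
    refine (MvPolynomial.totalDegree_finsetProd _ _).trans ?_
    calc ∑ g : G, (MvPolynomial.X 1 - MvPolynomial.C ((ι t) ^ κ g 1) :
          MvPolynomial G Ω).totalDegree ≤ ∑ _g : G, 1 := by
          refine Finset.sum_le_sum fun g _ => ?_
          refine (MvPolynomial.totalDegree_sub _ _).trans (max_le ?_ ?_)
          · rw [MvPolynomial.totalDegree_X]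
          · rw [MvPolynomial.totalDegree_C]; exact Nat.zero_le _
      _ = Fintype.card G := by simp
  -- a good point of the grid
  obtain ⟨c, hc, hcQ⟩ : ∃ c : G → Ω, (∀ i, c i ∈ (Finset.range N).image (fun n : ℕ => (ι t) ^ n)) ∧
      MvPolynomial.eval c Q ≠ 0 := by
    by_contra hcon
    push Not at hcon
    refine hQ0 (MvPolynomial.eq_zero_of_eval_zero_at_prod_finset Q
      (fun _ => (Finset.range N).image (fun n : ℕ => (ι t) ^ n)) ?_ hcon)
    intro i
    rw [Finset.card_image_of_injective _ hpow, Finset.card_range]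
    exact lt_of_le_of_lt ((MvPolynomial.degreeOf_le_totalDegree Q i).trans hQdeg)
      (Nat.lt_succ_self _)
  choose k hk hkc using fun i => Finset.mem_image.1 (hc i)
  have hkK : k ∈ K := Fintype.mem_piFinset.2 hk
  have hQe : MvPolynomial.eval c Q = MvPolynomial.eval c (MvPolynomial.aeval L P) *
      ∏ g : G, (c 1 - (ι t) ^ κ g 1) := by
    simp [Q, map_prod]
  rw [hQe] at hcQ
  have hc1 := left_ne_zero_of_mul hcQ
  have hc2 := right_ne_zero_of_mul hcQ
  rw [Finset.prod_ne_zero_iff] at hc2
  refine ⟨ρ * w k, Finset.mem_image_of_mem _ hkK, ?_, ?_⟩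
  · have h1 : (fun g : G => ι (g • (q + ρ * w k))) =
        fun g => ι (g • q) + ∑ i, (ι ρ * ι (g • θ i)) * c i := by
      funext g
      rw [hval]
      simp only [hkc]
    rw [h1, ← hev]
    exact hc1
  · intro g
    by_contra hle
    push Not at hle
    have h1 := hκ g k hkK hle
    apply hc2 g (Finset.mem_univ g)
    rw [← h1, ← hkc 1, sub_self]

end Pool.Agent.H3.HP
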