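import Pool.Agent.H13.HP.Defs

/-!
# Module VAL (hp_modules): a valuation with `1 < v t`
-/

open Polynomial

namespace Pool.Agent.H3.HP

open Pool.Agent.H13.HP

universe u

theorem val : T_VAL.{u} := by
  intro p _ Ω _ _ t ht
  have ht0 : t ≠ 0 := by
    rintro rfl
    exact ht isAlgebraic_zero
  let A : Subring Ω := (Algebra.adjoin (ZMod p) {t⁻¹}).toSubring
  have hz : t⁻¹ ∈ A := Algebra.subset_adjoin rfl
  let z : A := ⟨t⁻¹, hz⟩
  have hne : Ideal.span {z} ≠ ⊤ := by
    intro h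
    rw [Ideal.eq_top_iff_one, Ideal.mem_span_singleton] at h
    obtain ⟨⟨y, hy⟩, hm⟩ := h
    have hy' : y ∈ Algebra.adjoin (ZMod p) {t⁻¹} := hy
    rw [Algebra.adjoin_singleton_eq_range_aeval] at hy'
    obtain ⟨q, hq⟩ := hy'
    have h1 : (1 : Ω) = t⁻¹ * y := congrArg Subtype.val hm
    have htr : Transcendental (ZMod p) t⁻¹ := by
      intro h
      exact ht (by simpa using h.inv)
    rw [transcendental_iff] at htr
    have h2 : (1 - X * q : (ZMod p)[X]) = 0 := by
      apply htr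
      rw [map_sub, map_one, map_mul, aeval_X]
      have hq' : aeval t⁻¹ q = y := hq
      rw [hq', ← h1, sub_self]
    have h3 := congrArg (fun r : (ZMod p)[X] => r.coeff 0) h2
    simp at h3
  obtain ⟨V, -, hV⟩ := Ideal.image_subset_nonunits_valuationSubring _ hne
  refine ⟨V, ?_⟩
  have h2 : V.valuation t⁻¹ < 1 := hV ⟨z, Ideal.subset_span rfl, rfl⟩
  rw [map_inv₀] at h2
  have h3 : V.valuation t ≠ 0 := by
    rw [Valuation.ne_zero_iff]
    exact ht0
  rwa [inv_lt_one₀ (zero_lt_iff.2 h3)] at h2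

end Pool.Agent.H3.HP
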